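import Pool.Agent.E8helper39.WW.Stm

/-!
# WW / FIRST and START (helper87)
-/

set_option autoImplicit false

open Module Submodule

namespace Pool.Agent.E8helper87.WW

open WW39

section
variable {V : Type} [AddCommGroup V] [Module ℝ V]

theorem mem_spanE {E : Set V} {p : V} (h : p ∈ E ∨ -p ∈ E) : p ∈ span ℝ E := by
  rcases h with h | h
  · exact subset_span h
  · have := neg_mem (subset_span h : -p ∈ span ℝ E)
    rwa [neg_neg] at this

/-- the lift of a functional on the hyperplane `f = 0` which vanishes at `p` is again `Cut` -/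
theorem cut_lift {E : Set V} {p : V} {f g : Dual ℝ V} (hp : p ∈ E ∨ -p ∈ E) (hf : Cut E f)
    (hfp : f p ≠ 0) (hgp : g p = 0) (hg : Cut (E ∩ {e | f e = 0}) g) : Cut E g := by
  obtain ⟨⟨e, he, hge⟩, hg2⟩ := hg
  refine ⟨⟨e, he.1, hge⟩, fun x hx hgx => ?_⟩
  have hpE := mem_spanE hp
  have h1 : x - (f x / f p) • p ∈ span ℝ E := sub_mem hx (smul_mem _ _ hpE)
  have h2 : f (x - (f x / f p) • p) = 0 := by
    rw [map_sub, map_smul, smul_eq_mul, div_mul_cancel₀ _ hfp, sub_self]
  have h3 := hf.2 _ h1 h2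
  have h4 : g (x - (f x / f p) • p) = 0 := by
    rw [map_sub, map_smul, hgp, hgx, smul_zero, sub_zero]
  have h5 := hg2 _ h3 h4
  have h6 : x - (f x / f p) • p ∈ span ℝ (E ∩ {e | g e = 0}) := by
    refine span_mono ?_ h5
    intro y hy
    exact ⟨hy.1.1, hy.2⟩
  have h7 : p ∈ span ℝ (E ∩ {e | g e = 0}) := by
    apply mem_spanE
    rcases hp with hp | hp
    · exact Or.inl ⟨hp, hgp⟩
    · refine Or.inr ⟨hp, ?_⟩
      simp [hgp]
  have := add_mem h6 (smul_mem _ (f x / f p) h7)
  rwa [sub_add_cancel] at this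

/-- the ratio depends only on the zero set -/
theorem ratio_eq {E : Set V} {p q : V} {f g : Dual ℝ V} (hp : p ∈ span ℝ E) (hq : q ∈ span ℝ E)
    (hf : Cut E f)
    (h : E ∩ {e | f e = 0} = E ∩ {e | g e = 0}) : - f p / f q = - g p / g q := by
  obtain ⟨⟨e, he, hfe⟩, hf2⟩ := hf
  have hge : g e ≠ 0 := by
    intro h0
    have : e ∈ E ∩ {e | g e = 0} := ⟨he, h0⟩
    rw [← h] at this
    exact hfe this.2
  have key : ∀ x ∈ span ℝ E, g x = (g e / f e) * f x := by
    intro x hx
    have h1 : x - (f x / f e) • e ∈ span ℝ E := sub_mem hx (smul_mem _ _ (subset_span he))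
    have h2 : f (x - (f x / f e) • e) = 0 := by
      rw [map_sub, map_smul, smul_eq_mul, div_mul_cancel₀ _ hfe, sub_self]
    have h3 := hf2 _ h1 h2
    rw [h] at h3
    have h4 : span ℝ (E ∩ {e | g e = 0}) ≤ LinearMap.ker g := by
      rw [span_le]
      intro y hy
      exact hy.2
    have h5 : g (x - (f x / f e) • e) = 0 := h4 h3
    rw [map_sub, map_smul, smul_eq_mul, sub_eq_zero] at h5
    rw [h5]; ring
  rw [key p hp, key q hq]
  have hc : g e / f e ≠ 0 := div_ne_zero hge hfe
  rw [← mul_neg, mul_div_mul_left _ _ hc]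

end

theorem t_FIRST : S_FIRST := by
  intro V _ _ E p q K hE hp hq hgen hK hex
  classical
  have hpE := mem_spanE hp
  -- the class
  let F : Set (Dual ℝ V) := {f | K f ∧ Cut E f ∧ 0 < f q ∧ f p < 0}
  let Z : Dual ℝ V → Set V := fun f => E ∩ {e | f e = 0}
  have hfin : (Z '' F).Finite := by
    apply hE.finite_subsets.subset
    rintro _ ⟨f, _, rfl⟩
    exact Set.inter_subset_left
  have hne : (Z '' F).Nonempty := by
    obtain ⟨f, h1, h2, h3, h4⟩ := hex
    exact ⟨Z f, f, ⟨h1, h2, h3, h4⟩, rfl⟩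
  have hmin : ∃ f ∈ F, ∀ g ∈ F, - f p / f q ≤ - g p / g q := by
    have hch : ∀ z ∈ Z '' F, ∃ f ∈ F, Z f = z := fun z hz => hz
    choose! c hc1 hc2 using hch
    obtain ⟨z, hz, hz2⟩ := Set.exists_min_image (Z '' F) (fun z => - (c z) p / (c z) q) hfin hne
    refine ⟨c z, hc1 z hz, fun g hg => ?_⟩
    have h1 := hz2 (Z g) ⟨g, hg, rfl⟩
    have h2 := hc1 (Z g) ⟨g, hg, rfl⟩
    have h3 : Z (c (Z g)) = Z g := hc2 (Z g) ⟨g, hg, rfl⟩
    have h4 := ratio_eq hpE hq h2.2.1 h3
    rw [← h4]
    exact h1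
  obtain ⟨f, ⟨hfK, hfc, hfq, hfp⟩, hfm⟩ := hmin
  refine ⟨f, hfK, hfq, ?_⟩
  have hval : ∀ g : Dual ℝ V, g p = 0 → g (q - (f q / f p) • p) = g q := by
    intro g hg
    rw [map_sub, map_smul, hg, smul_zero, sub_zero]
  refine ⟨hp, hfc, hfp, ?_, ?_, ?_⟩
  · rw [map_sub, map_smul, smul_eq_mul, div_mul_cancel₀ _ hfp.ne, sub_self]
  · intro g hgp hg
    rw [hval g hgp]
    exact hgen g (cut_lift hp hfc hfp.ne hgp hg)
  · intro g hgp hg hgq e he
    rw [hval g hgp] at hgq
    have hgc := cut_lift hp hfc hfp.ne hgp hg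
    by_contra hlt
    push Not at hlt
    have hfe : f e ≠ 0 := fun h => by rw [h, zero_mul] at hlt; exact lt_irrefl _ hlt
    have hge : g e ≠ 0 := fun h => by rw [h, mul_zero] at hlt; exact lt_irrefl _ hlt
    have ha : 0 < |g e| := abs_pos.mpr hge
    have hb : 0 < |f e| := abs_pos.mpr hfe
    have h0 : |g e| * f e + |f e| * g e = 0 := by
      rcases lt_or_gt_of_ne hfe with h1 | h1
      · have h2 : 0 < g e := by nlinarith
        rw [abs_of_pos h2, abs_of_neg h1]; ring
      · have h2 : g e < 0 := by nlinarith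
        rw [abs_of_neg h2, abs_of_pos h1]; ring
    set f' : Dual ℝ V := |g e| • f + |f e| • g with hf'
    have hv : ∀ x, f' x = |g e| * f x + |f e| * g x := fun x => by
      rw [hf']; simp
    have hf'e : f' e = 0 := by rw [hv, h0]
    have hf'p : f' p < 0 := by
      rw [hv, hgp, mul_zero, add_zero]
      exact mul_neg_of_pos_of_neg ha hfp
    have hf'q : 0 < f' q := by
      rw [hv]
      positivity
    have hcut : Cut E f' := by
      refine ⟨?_, ?_⟩
      · rcases hp with hp | hp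
        · exact ⟨p, hp, hf'p.ne⟩
        · refine ⟨-p, hp, ?_⟩
          rw [map_neg]
          exact neg_ne_zero.mpr hf'p.ne
      · intro x hx hfx
        have h1 : x - (f x / f e) • e ∈ span ℝ E := sub_mem hx (smul_mem _ _ (subset_span he))
        have h2 : f (x - (f x / f e) • e) = 0 := by
          rw [map_sub, map_smul, smul_eq_mul, div_mul_cancel₀ _ hfe, sub_self]
        have h3 := hfc.2 _ h1 h2
        have h4 : f' (x - (f x / f e) • e) = 0 := by
          rw [map_sub, map_smul, hf'e, hfx, smul_zero, sub_zero]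
        have h5 : g (x - (f x / f e) • e) = 0 := by
          rw [hv, h2, mul_zero, zero_add] at h4
          exact (mul_eq_zero.mp h4).resolve_left hb.ne'
        have h6 := hg.2 _ h3 h5
        have h7 : x - (f x / f e) • e ∈ span ℝ (E ∩ {e | f' e = 0}) := by
          refine span_mono ?_ h6
          intro y hy
          refine ⟨hy.1.1, ?_⟩
          have hy1 : f y = 0 := hy.1.2
          have hy2 : g y = 0 := hy.2
          change f' y = 0
          rw [hv, hy1, hy2, mul_zero, mul_zero, add_zero]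
        have h8 : e ∈ span ℝ (E ∩ {e | f' e = 0}) := subset_span ⟨he, hf'e⟩
        have := add_mem h7 (smul_mem _ (f x / f e) h8)
        rwa [sub_add_cancel] at this
    have hmem : f' ∈ F := ⟨hK f g _ _ ha hb hfK hgc hgq hcut, hcut, hf'q, hf'p⟩
    have h9 := hfm f' hmem
    rw [div_le_div_iff₀ hfq hf'q, hv, hv, hgp] at h9
    nlinarith [mul_pos (mul_pos (neg_pos.mpr hfp) hb) hgq]

theorem t_START (h : S_FIRST) : S_START := by
  intro V _ _ _ E hE hspan hne
  classical
  obtain ⟨p, hp, hp0⟩ := hne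
  -- a generic vector
  obtain ⟨q, hq⟩ : ∃ q, Gen E q := by
    let S : Set (Submodule ℝ V) := {W | ∃ f, Cut E f ∧ W = LinearMap.ker f}
    have hfin : S.Finite := by
      apply (hE.finite_subsets.image (fun A => span ℝ A)).subset
      rintro _ ⟨f, hf, rfl⟩
      refine ⟨E ∩ {e | f e = 0}, Set.inter_subset_left, ?_⟩
      apply le_antisymm
      · rw [span_le]
        intro y hy
        exact hy.2
      · intro x hx
        exact hf.2 x (by rw [hspan]; trivial) hx
    have htop : (⊤ : Submodule ℝ V) ∉ hfin.toFinset := by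
      rw [Set.Finite.mem_toFinset]
      rintro ⟨f, hf, hfk⟩
      obtain ⟨⟨e, _, he⟩, _⟩ := hf
      apply he
      have : e ∈ (⊤ : Submodule ℝ V) := trivial
      rw [hfk] at this
      exact this
    have h1 := Subspace.biUnion_ne_univ_of_top_notMem htop
    rw [Set.ne_univ_iff_exists_notMem] at h1
    obtain ⟨q, hq⟩ := h1
    refine ⟨q, fun f hf hfq => hq ?_⟩
    simp only [Set.mem_iUnion]
    refine ⟨LinearMap.ker f, ?_, hfq⟩
    rw [Set.Finite.mem_toFinset]
    exact ⟨f, hf, rfl⟩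
  -- a spanned hyperplane not containing `p`
  obtain ⟨f, hf, hfp⟩ : ∃ f, Cut E f ∧ f p ≠ 0 := by
    have hli : LinearIndepOn ℝ id ({p} : Set V) := LinearIndepOn.singleton hp0
    obtain ⟨b, hbE, hpb, hEb, hb⟩ := exists_linearIndepOn_id_extension hli
      (Set.singleton_subset_iff.mpr hp)
    have hpb' : p ∈ b := hpb rfl
    have htop : span ℝ b = ⊤ := by
      rw [eq_top_iff, ← hspan, span_le]
      exact hEb
    let B : Basis b ℝ V := Basis.mk (v := ((↑) : b → V)) hb (by
      rw [Subtype.range_coe, htop])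
    have hB : ∀ i, B i = (i : V) := fun i => Basis.mk_apply hb _ i
    let f := B.coord ⟨p, hpb'⟩
    have hfp : f p = 1 := by
      have := B.coord_apply ⟨p, hpb'⟩ (B ⟨p, hpb'⟩)
      rw [B.repr_self, Finsupp.single_eq_same] at this
      rw [hB] at this
      exact this
    have hfb : ∀ e ∈ b, e ≠ p → f e = 0 := by
      intro e he hep
      have := B.coord_apply ⟨p, hpb'⟩ (B ⟨e, he⟩)
      rw [B.repr_self, Finsupp.single_eq_of_ne] at this
      · rw [hB] at this
        exact this
      · intro h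
        exact hep (congrArg Subtype.val h).symm
    refine ⟨f, ⟨⟨p, hp, by rw [hfp]; exact one_ne_zero⟩, ?_⟩, by rw [hfp]; exact one_ne_zero⟩
    intro x _ hfx
    have hx : x ∈ span ℝ (insert p (b \ {p})) := by
      rw [Set.insert_sdiff_singleton, Set.insert_eq_of_mem hpb', htop]
      trivial
    rw [mem_span_insert] at hx
    obtain ⟨c, y, hy, rfl⟩ := hx
    have hy2 : span ℝ (b \ {p}) ≤ span ℝ (E ∩ {e | f e = 0}) :=
      span_mono fun e he => ⟨hbE he.1, hfb e he.1 he.2⟩
    have hy3 := hy2 hy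
    have hy4 : span ℝ (E ∩ {e | f e = 0}) ≤ LinearMap.ker f := by
      rw [span_le]
      intro y hy
      exact hy.2
    have hy5 : f y = 0 := hy4 hy3
    rw [map_add, map_smul, hfp, hy5, add_zero, smul_eq_mul, mul_one] at hfx
    rw [hfx, zero_smul, zero_add]
    exact hy3
  -- signs
  obtain ⟨f, hf, hfp, hfq⟩ : ∃ f, Cut E f ∧ f p ≠ 0 ∧ 0 < f q := by
    rcases lt_or_gt_of_ne (hq f hf) with h1 | h1
    · refine ⟨-f, ⟨?_, ?_⟩, ?_, ?_⟩
      · obtain ⟨e, he, hfe⟩ := hf.1
        exact ⟨e, he, by simpa using hfe⟩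
      · intro x hx hfx
        have h2 : f x = 0 := by simpa using hfx
        have h3 := hf.2 x hx h2
        refine span_mono ?_ h3
        intro e he
        refine ⟨he.1, ?_⟩
        have : f e = 0 := he.2
        change (-f) e = 0
        rw [LinearMap.neg_apply, this, neg_zero]
      · simpa using hfp
      · simpa using h1
    · exact ⟨f, hf, hfp, h1⟩
  have hqE : q ∈ span ℝ E := by rw [hspan]; trivial
  rcases lt_or_gt_of_ne hfp with h1 | h1
  · obtain ⟨f', _, _, h3⟩ := h V E p q (fun _ => True) hE (Or.inl hp) hqE hq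
      (fun _ _ _ _ _ _ _ _ _ _ => trivial) ⟨f, trivial, hf, hfq, h1⟩
    exact ⟨p, f', _, h3⟩
  · obtain ⟨f', _, _, h3⟩ := h V E (-p) q (fun _ => True) hE (Or.inr (by rwa [neg_neg])) hqE hq
      (fun _ _ _ _ _ _ _ _ _ _ => trivial) ⟨f, trivial, hf, hfq, by rw [map_neg]; linarith⟩
    exact ⟨-p, f', _, h3⟩

end Pool.Agent.E8helper87.WW
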